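import Pool.Agent.Helper72.FX.StC1

/-! # Project FX, module CB: the condition of the first pencil -/

set_option autoImplicit false

namespace Pool.Agent.Helper14.FX

open Polynomial Pool.Agent.Helper21.FX Pool.Agent.Helper72.FX

/-- cokernels along an isomorphism -/
theorem ck_equiv {A : Type} [CommRing A] (x : A) {M N : Type} [AddCommGroup M] [Module A M]
    [AddCommGroup N] [Module A N] (e : M ≃ₗ[A] N) : Nonempty (Ck x M ≃ₗ[A] Ck x N) := by
  refine ⟨Submodule.Quotient.equiv _ _ e ?_⟩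
  ext y
  simp only [Submodule.mem_map, LinearMap.mem_range, LinearMap.lsmul_apply]
  constructor
  · rintro ⟨z, ⟨w, rfl⟩, rfl⟩
    exact ⟨e w, by simp⟩
  · rintro ⟨w, rfl⟩
    exact ⟨x • e.symm w, ⟨e.symm w, rfl⟩, by simp⟩

/-- kernels along an injective map to a module without kernel -/
theorem kn_sub {A : Type} [CommRing A] (x : A) {M N : Type} [AddCommGroup M] [Module A M]
    [AddCommGroup N] [Module A N] (e : M ≃ₗ[A] N) (h : Subsingleton (Kn x N)) :
    Subsingleton (Kn x M) := by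
  constructor
  rintro ⟨u, hu⟩ ⟨v, hv⟩
  rw [LinearMap.mem_ker, LinearMap.lsmul_apply] at hu hv
  have h1 : e u ∈ LinearMap.ker (LinearMap.lsmul A N x) := by
    rw [LinearMap.mem_ker, LinearMap.lsmul_apply, ← map_smul, hu, map_zero]
  have h2 : e v ∈ LinearMap.ker (LinearMap.lsmul A N x) := by
    rw [LinearMap.mem_ker, LinearMap.lsmul_apply, ← map_smul, hv, map_zero]
  have h3 : (⟨e u, h1⟩ : Kn x N) = ⟨e v, h2⟩ := Subsingleton.elim _ _
  have h4 : e u = e v := congrArg Subtype.val h3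
  exact Subtype.ext (e.injective h4)

theorem s7_prime : Prime s7 := MvPolynomial.X_prime

theorem s7_ndvd : ¬ s7 ∣ q7 := by
  rintro ⟨u, hu⟩
  have h := congrArg (MvPolynomial.eval (fun i : Fin 7 => if i = 1 then (1 : ℂ) else 0)) hu
  simp [q7, nu7, nu, s7, a7, b7, t7, m7] at h

theorem cs7_ndvd : ¬ (C s7 : B8) ∣ C q7 := by
  intro h
  rw [Polynomial.C_dvd_iff_dvd_coeff] at h
  have h0 := h 0
  rw [Polynomial.coeff_C_zero] at h0
  exact s7_ndvd h0

theorem cs7_prime : Prime (C s7 : B8) := Polynomial.prime_C_iff.2 s7_prime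

theorem kilK {Y : Type} [AddCommGroup Y] [Module B8 Y] (h1 : ∀ y : Y, (C s7 : B8) • y = 0)
    (h2 : ∀ y : Y, (C q7 : B8) • y = 0) : kil (Ideal.span {(C s7 : B8), C nu7}) Y := by
  intro x hx y
  obtain ⟨a, b, rfl⟩ := Ideal.mem_span_pair.1 hx
  have h3 : (C nu7 : B8) = C q7 + C m7 * C s7 := by
    rw [q7, ← C_mul, ← C_add]
    congr 1
    ring
  rw [h3, add_smul, mul_smul, mul_smul, add_smul, h1, h2, mul_smul, h1]
  simp

theorem span_eq : (Ideal.span {s7} : Ideal B7).map (C : B7 →+* B8) ⊔ Ideal.span {(C q7 : B8)} =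
    Ideal.span {(C s7 : B8), C nu7} := by
  rw [Ideal.map_span, Set.image_singleton]
  apply le_antisymm
  · apply sup_le
    · rw [Ideal.span_le, Set.singleton_subset_iff]
      exact Ideal.subset_span (by simp)
    · rw [Ideal.span_le, Set.singleton_subset_iff, SetLike.mem_coe, Ideal.mem_span_pair]
      refine ⟨-C m7, 1, ?_⟩
      rw [q7, C_sub, C_mul]
      ring
  · rw [Ideal.span_le]
    intro y hy
    rcases hy with rfl | hy
    · exact Ideal.mem_sup_left (Ideal.subset_span rfl)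
    · rw [Set.mem_singleton_iff] at hy
      subst hy
      have h3 : (C nu7 : B8) = C m7 * C s7 + C q7 := by
        rw [q7, ← C_mul, ← C_add]
        congr 1
        ring
      rw [SetLike.mem_coe, h3]
      exact Ideal.add_mem _ (Ideal.mem_sup_left (Ideal.mul_mem_left _ _ (Ideal.subset_span rfl)))
        (Ideal.mem_sup_right (Ideal.subset_span rfl))

theorem cs_kill (hPMX : StPMX) {N : Type} [AddCommGroup N] [Module B7 N]
    (h : kil (Ideal.span {s7}) N) (y : PolynomialModule B7 N) : (C s7 : B8) • y = 0 :=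
  (hPMX B7 N N N LinearMap.id LinearMap.id).2.2.2.2.1 (Ideal.span {s7}) h (C s7)
    (Ideal.mem_map_of_mem _ (Ideal.subset_span rfl)) y

theorem kn_kil (hPMX : StPMX) {N : Type} [AddCommGroup N] [Module B7 N]
    (h : kil (Ideal.span {s7}) N) :
    kil (Ideal.span {(C s7 : B8), C nu7}) (Kn (C q7 : B8) (PolynomialModule B7 N)) := by
  apply kilK
  · rintro ⟨y, hy⟩
    exact Subtype.ext (cs_kill hPMX h y)
  · rintro ⟨y, hy⟩
    exact Subtype.ext (by simpa using hy)

theorem ck_kil (hPMX : StPMX) {N : Type} [AddCommGroup N] [Module B7 N]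
    (h : kil (Ideal.span {s7}) N) :
    kil (Ideal.span {(C s7 : B8), C nu7}) (Ck (C q7 : B8) (PolynomialModule B7 N)) := by
  apply kilK
  · intro y
    obtain ⟨z, rfl⟩ := Submodule.Quotient.mk_surjective _ y
    rw [← Submodule.Quotient.mk_smul, cs_kill hPMX h z, Submodule.Quotient.mk_zero]
  · intro y
    obtain ⟨z, rfl⟩ := Submodule.Quotient.mk_surjective _ y
    rw [← Submodule.Quotient.mk_smul, Submodule.Quotient.mk_eq_zero]
    exact ⟨z, rfl⟩

theorem hCB : StCB := by
  intro hZP hSNK hPMX hPMQ hCKQ χ0 hχ0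
  have hT : ∃ T : AF B7 (kil (Ideal.span {s7})) (ZMod 2),
      ∀ (N : Type) [AddCommGroup N] [Module B7 N], T.f N =
        χ0.f (Ck (C q7 : B8) (PolynomialModule B7 N)) -
          χ0.f (Kn (C q7 : B8) (PolynomialModule B7 N)) := by
    refine ⟨{ f := fun N _ _ => χ0.f (Ck (C q7 : B8) (PolynomialModule B7 N)) -
          χ0.f (Kn (C q7 : B8) (PolynomialModule B7 N)), exact' := ?_ }, fun N _ _ => rfl⟩
    intro M N Q _ _ _ _ _ _ i p hf hN hi hip hp
    have hM : kil (Ideal.span {s7}) M := (gd_kil _).inj M N i hi hN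
    have hQ : kil (Ideal.span {s7}) Q := (gd_kil _).surj N Q p hp hN
    have fM : Module.Finite B7 M := Module.Finite.of_injective i hi
    have fQ : Module.Finite B7 Q := Module.Finite.of_surjective p hp
    have gM : Module.Finite B8 (PolynomialModule B7 M) :=
      (hPMX B7 M N Q i p).2.2.2.1 fM
    have gN : Module.Finite B8 (PolynomialModule B7 N) :=
      (hPMX B7 N Q Q p LinearMap.id).2.2.2.1 hf
    have gQ : Module.Finite B8 (PolynomialModule B7 Q) :=
      (hPMX B7 Q Q Q LinearMap.id LinearMap.id).2.2.2.1 fQ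
    have e1 := (hPMX B7 M N Q i p).1 hi
    have e2 := (hPMX B7 M N Q i p).2.2.1 hip
    have e3 := (hPMX B7 N Q Q p LinearMap.id).2.1 hp
    exact hSNK B8 (kil (Ideal.span {(C s7 : B8), C nu7})) (gd_kil _) (ZMod 2) χ0
      (PolynomialModule B7 M) (PolynomialModule B7 N) (PolynomialModule B7 Q)
      (PolynomialModule B7 M) (PolynomialModule B7 N) (PolynomialModule B7 Q)
      (pmap i) (pmap p) (pmap i) (pmap p)
      (LinearMap.lsmul B8 _ (C q7)) (LinearMap.lsmul B8 _ (C q7)) (LinearMap.lsmul B8 _ (C q7))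
      e1 e2 e3 e1 e2 e3
      (by apply LinearMap.ext; intro y; simp)
      (by apply LinearMap.ext; intro y; simp)
      inferInstance (kn_kil hPMX hN) inferInstance (kn_kil hPMX hQ)
      inferInstance (ck_kil hPMX hM) inferInstance (ck_kil hPMX hN)
  obtain ⟨T, hTf⟩ := hT
  have hval : T.f (B7 ⧸ (Ideal.span {s7} : Ideal B7)) = 0 := by
    rw [hTf]
    obtain ⟨e⟩ := hPMQ B7 (Ideal.span {s7})
    obtain ⟨h1, h2⟩ := hCKQ B8 ((Ideal.span {s7} : Ideal B7).map C) (C q7)
    rw [span_eq] at h1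
    obtain ⟨e1⟩ := h1
    obtain ⟨e2⟩ := ck_equiv (C q7 : B8) e
    have h3 : Subsingleton (Kn (C q7 : B8) (PolynomialModule B7 (B7 ⧸ (Ideal.span {s7} : Ideal B7)))) := by
      refine kn_sub _ e (h2 ?_)
      intro y hy
      rw [Ideal.map_span, Set.image_singleton, Ideal.mem_span_singleton] at hy ⊢
      exact (cs7_prime.dvd_or_dvd hy).resolve_left cs7_ndvd
    have h4 : χ0.f (Ck (C q7 : B8) (PolynomialModule B7 (B7 ⧸ (Ideal.span {s7} : Ideal B7)))) =
        χ0.f (B8 ⧸ Ideal.span {(C s7 : B8), C nu7}) :=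
      AF.equiv χ0 (gd_kil _) (e2.trans e1) inferInstance (kil_quot _)
    rw [h4, hχ0, AF.of_subsingleton χ0 (gd_kil _), sub_zero]
  intro N _ _ hf hN
  rw [← hTf]
  refine hZP.2 6 3 (ZMod 2) T ?_ hval N hf (kil_span hN)
  intro N' _ _ _ _ h1
  have : Subsingleton N' := ⟨fun u v => by rw [← one_smul B7 u, h1 u, ← one_smul B7 v, h1 v]⟩
  exact AF.of_subsingleton T (gd_kil _) N'

end Pool.Agent.Helper14.FX
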