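import Pool.Agent.Helper65.FX.St

/-! # Project FX, module RET: local retraction onto `{P = 0}` (SLV applied to `s ↦ P (x + B x s)`) -/

set_option autoImplicit false

namespace Pool.Agent.Helper14.FX

open Pool.Agent.Helper65.FX Pool.Agent.Helper87.FX
open Set Topology Metric Filter
open scoped ContDiff

theorem hRET : StSLV → StSEL → StRET := by
  intro hSLV hSEL V _ _ _ P L hP hsurj hL hPL
  have hPc : Continuous P := hP.continuous
  have hPd : Differentiable ℝ P := hP.differentiable (by simp)
  have hDP : Continuous (fderiv ℝ P) := hP.continuous_fderiv (by simp)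
  obtain ⟨B, hB, hBL⟩ := hSEL V V ℂ L (fun x => fderiv ℝ P x) (1 / 2) hL hDP
    (fun x hx => hsurj x (hPL x hx)) (by norm_num)
  have hder : ∀ (t : V) (u : ℂ),
      HasFDerivAt (fun s : ℂ => P (t + B t s)) ((fderiv ℝ P (t + B t u)).comp (B t)) u := by
    intro t u
    have h1 : HasFDerivAt (fun s : ℂ => t + B t s) (B t) u := (B t).hasFDerivAt.const_add t
    exact (hPd (t + B t u)).hasFDerivAt.comp u h1
  have hcont : Continuous (fun z : V × ℂ => z.1 + B z.1 z.2) :=
    continuous_fst.add ((hB.comp continuous_fst).clm_apply continuous_snd)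
  obtain ⟨O, s, hO, hLO, hs, hs0, hsL⟩ := hSLV V ℂ L (fun t u => P (t + B t u)) hL
    (hPc.comp hcont) (fun t u => (hder t u).differentiableAt)
    (by
      have he : (fun z : V × ℂ => fderiv ℝ (fun u => P (z.1 + B z.1 u)) z.2)
          = fun z : V × ℂ => (fderiv ℝ P (z.1 + B z.1 z.2)).comp (B z.1) := by
        funext z
        exact (hder z.1 z.2).fderiv
      rw [he]
      exact (hDP.comp hcont).clm_comp (hB.comp continuous_fst))
    (fun t ht => by simpa using hPL t ht)
    (fun t ht => by
      rw [(hder t 0).fderiv]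
      simpa using hBL t ht)
  refine ⟨O, fun x => x + B x (s x), hO, hLO, ?_, ?_, ?_⟩
  · exact continuousOn_id.add (hB.continuousOn.clm_apply hs)
  · intro x hx
    exact hs0 x hx
  · intro x hx
    simp [hsL x hx]

end Pool.Agent.Helper14.FX
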